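import Mathlib

set_option autoImplicit false

namespace Pool.Agent.H68.TV

open Finset

/-- the sign character of `ZMod 2` -/
noncomputable def chi (a : ZMod 2) : ℝ := if a = 0 then 1 else -1

theorem chi_zero : chi 0 = 1 := by simp [chi]

theorem chi_one : chi 1 = -1 := by simp [chi]

theorem zmod2_cases (a : ZMod 2) : a = 0 ∨ a = 1 := by
  revert a; decide

theorem chi_add (a b : ZMod 2) : chi (a + b) = chi a * chi b := by
  have h11 : (1 : ZMod 2) + 1 = 0 := by decide
  rcases zmod2_cases a with rfl | rfl <;> rcases zmod2_cases b with rfl | rfl <;>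
    simp [chi_zero, chi_one, h11]

theorem chi_pm (a : ZMod 2) : chi a = 1 ∨ chi a = -1 := by
  rcases zmod2_cases a with rfl | rfl
  · left; exact chi_zero
  · right; exact chi_one

theorem chi_mul_self (a : ZMod 2) : chi a * chi a = 1 := by
  rcases chi_pm a with h | h <;> rw [h] <;> norm_num

theorem zmod2_ne_zero {a : ZMod 2} (h : a ≠ 0) : a = 1 := by
  rcases zmod2_cases a with h' | h'
  · exact absurd h' h
  · exact h'

theorem sum_chi {G : Type*} [AddCommGroup G] [Fintype G] (f : G →+ ZMod 2)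
    (hf : ∃ g, f g ≠ 0) : ∑ g, chi (f g) = 0 := by
  obtain ⟨g0, hg0⟩ := hf
  have h1 : f g0 = 1 := zmod2_ne_zero hg0
  have h : ∑ g, chi (f g) = ∑ g, chi (f (g0 + g)) :=
    (Equiv.sum_comp (Equiv.addLeft g0) (fun g => chi (f g))).symm
  simp only [map_add, chi_add, h1, chi_one] at h
  rw [← Finset.mul_sum] at h
  linarith

/-- abstract data -/
structure Data (V W : Type*) [AddCommGroup V] [AddCommGroup W] [Module (ZMod 2) V]
    [Module (ZMod 2) W] where
  N : V →+ V →+ W
  M : V →+ V →+ ZMod 2
  P : V →+ V →+ ZMod 2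
  dot : W →+ W →+ ZMod 2
  h : W →+ ZMod 2
  e0 : W
  Nsymm : ∀ i j, N i j = N j i
  Msymm : ∀ i j, M i j = M j i
  Psymm : ∀ i j, P i j = P j i
  dsymm : ∀ x y, dot x y = dot y x
  he0 : h e0 = 1
  Nalt : ∀ i, h (N i i) = 0
  Palt : ∀ i, P i i = 0
  dotnd : ∀ x, x ≠ 0 → ∃ y, dot x y ≠ 0
  hN : ∀ l, l ≠ 0 → ∀ u, u ≠ 0 → ∃ j, dot u (N l j) ≠ 0
  hM : ∀ l, l ≠ 0 → ∀ u, ∃ j, dot u (N l j) + M l j ≠ 0
  hP : ∀ l, l ≠ 0 → ∀ ε : ZMod 2, ∃ j, P l j + ε * h (N l j) ≠ 0
  hA : ∀ l, l ≠ 0 → ∃ j, h (N l j) ≠ 0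

namespace Data

variable {V W : Type*} [AddCommGroup V] [AddCommGroup W] [Module (ZMod 2) V]
    [Module (ZMod 2) W] (D : Data V W)

theorem hsmul (a : ZMod 2) (w : W) : D.h (a • w) = a * D.h w := by
  rcases zmod2_cases a with rfl | rfl <;> simp

theorem addself (w : W) : w + w = 0 := ZModModule.add_self w

theorem add_eq_zero_iff' {w w' : W} : w + w' = 0 ↔ w = w' := by
  constructor
  · intro h
    have : w + w' + w' = w' := by rw [h, zero_add]
    rwa [add_assoc, addself, add_zero] at this
  · rintro rfl; exact addself w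

/-- the bilinear map attached to `x` -/
noncomputable def Nx (x : W) (i j : V) : W := if D.h x = 0 then D.N i j else D.h (D.N i j) • D.e0

theorem h_Nx (x : W) (i j : V) : D.h (D.Nx x i j) = D.h (D.N i j) := by
  unfold Nx
  split_ifs
  · rfl
  · rw [hsmul, D.he0, mul_one]

theorem Nx_symm (x : W) (i j : V) : D.Nx x i j = D.Nx x j i := by
  unfold Nx
  rw [D.Nsymm]

theorem Nx_add (x : W) (i j k : V) : D.Nx x i j + D.Nx x j k = D.Nx x (i + k) j := by
  unfold Nx
  split_ifs
  · rw [D.Nsymm j k, map_add]; rfl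
  · rw [D.Nsymm j k, map_add, AddMonoidHom.add_apply, map_add, add_smul]

theorem Nx_zero (x : W) (j : V) : D.Nx x 0 j = 0 := by
  unfold Nx
  split_ifs <;> simp

/-- the permutation `x ↦ x + e0 + N_x(i,j)` -/
noncomputable def E (i j : V) : W ≃ W where
  toFun x := x + D.e0 + D.Nx x i j
  invFun d := d + D.e0 +
    (if D.h d = 1 + D.h (D.N i j) then D.N i j else D.h (D.N i j) • D.e0)
  left_inv x := by
    have hh : D.h (x + D.e0 + D.Nx x i j) = D.h x + 1 + D.h (D.N i j) := by
      rw [map_add, map_add, D.h_Nx, D.he0]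
    have hc : (D.h (x + D.e0 + D.Nx x i j) = 1 + D.h (D.N i j)) ↔ D.h x = 0 := by
      rw [hh]
      constructor
      · intro h
        have : D.h x + (1 + D.h (D.N i j)) = 0 + (1 + D.h (D.N i j)) := by
          rw [zero_add, ← add_assoc]; exact h
        exact add_right_cancel this
      · intro h; rw [h, zero_add]
    simp only [hc]
    have h1 : (if D.h x = 0 then D.N i j else D.h (D.N i j) • D.e0) = D.Nx x i j := rfl
    rw [h1]
    have : x + D.e0 + D.Nx x i j + D.e0 + D.Nx x i j
        = x + (D.e0 + D.e0) + (D.Nx x i j + D.Nx x i j) := by abel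
    rw [this, addself, addself, add_zero, add_zero]
  right_inv d := by
    set y : W := (if D.h d = 1 + D.h (D.N i j) then D.N i j else D.h (D.N i j) • D.e0) with hy
    have hhy : D.h y = D.h (D.N i j) := by
      rw [hy]
      split_ifs
      · rfl
      · rw [hsmul, D.he0, mul_one]
    have h2 : (1 : ZMod 2) + 1 = 0 := by decide
    have hc : (D.h (d + D.e0 + y) = 0) ↔ (D.h d = 1 + D.h (D.N i j)) := by
      rw [map_add, map_add, D.he0, hhy]
      rcases zmod2_cases (D.h d) with h | h <;> rcases zmod2_cases (D.h (D.N i j)) with h' | h' <;>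
        rw [h, h'] <;> decide
    have h1 : D.Nx (d + D.e0 + y) i j = y := by
      unfold Nx
      simp only [hc]
      rfl
    simp only
    rw [h1]
    have : d + D.e0 + y + D.e0 + y = d + (D.e0 + D.e0) + (y + y) := by abel
    rw [this, addself, addself, add_zero, add_zero]

theorem E_apply (i j : V) (x : W) : D.E i j x = x + D.e0 + D.Nx x i j := rfl

theorem E_symm' (i j : V) : D.E i j = D.E j i := by
  ext x
  rw [E_apply, E_apply, Nx_symm]

open Classical in
/-- sign -/
noncomputable def sg (x : W) (i j : V) : ℝ :=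
  if x = 0 then -1 else if D.h x = 0 then -chi (D.M i j) else chi (D.P i j)

theorem sg_symm (x : W) (i j : V) : D.sg x i j = D.sg x j i := by
  unfold sg
  rw [D.Msymm, D.Psymm]

open Classical in
/-- product of signs -/
noncomputable def Q (x : W) (i j : V) : ZMod 2 :=
  if x = 0 then 0 else if D.h x = 0 then D.M i j else D.P i j

theorem sg_mul (x : W) (i j k : V) : D.sg x i j * D.sg x j k = chi (D.Q x (i + k) j) := by
  unfold sg Q
  split_ifs
  · rw [chi_zero]; norm_num
  · rw [D.Msymm j k, map_add, AddMonoidHom.add_apply, chi_add]; ring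
  · rw [D.Psymm j k, map_add, AddMonoidHom.add_apply, chi_add]

theorem sg_pm (x : W) (i j : V) : D.sg x i j = 1 ∨ D.sg x i j = -1 := by
  unfold sg
  split_ifs
  · right; rfl
  · rcases chi_pm (D.M i j) with h | h <;> rw [h] <;> norm_num
  · exact chi_pm _

/-- the matrix `C` -/
noncomputable def C (p q : V × W × W) : ℝ :=
  D.sg ((D.E p.1 q.1).symm (p.2.1 + q.2.1)) p.1 q.1 *
    chi (D.dot ((D.E p.1 q.1).symm (p.2.1 + q.2.1)) (p.2.2 + q.2.2))

theorem C_symm (p q : V × W × W) : D.C p q = D.C q p := by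
  unfold C
  rw [D.E_symm' p.1 q.1, add_comm p.2.1, add_comm p.2.2, D.sg_symm]

theorem C_pm (p q : V × W × W) : D.C p q = 1 ∨ D.C p q = -1 := by
  unfold C
  rcases D.sg_pm ((D.E p.1 q.1).symm (p.2.1 + q.2.1)) p.1 q.1 with h | h <;>
  rcases chi_pm (D.dot ((D.E p.1 q.1).symm (p.2.1 + q.2.1)) (p.2.2 + q.2.2)) with h' | h' <;>
  rw [h, h'] <;> norm_num

theorem C_diag (p : V × W × W) : D.C p p = 1 := by
  unfold C
  have hx : (D.E p.1 p.1).symm (p.2.1 + p.2.1) = D.e0 := by
    rw [Equiv.symm_apply_eq, E_apply, addself, addself, zero_add]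
    unfold Nx
    rw [D.he0, if_neg (by decide), D.Nalt, zero_smul]
  have he : D.e0 ≠ 0 := by
    intro h
    have := D.he0
    rw [h, map_zero] at this
    exact absurd this (by decide)
  rw [hx, addself, map_zero, chi_zero, mul_one]
  unfold sg
  rw [if_neg he, D.he0, if_neg (by decide), D.Palt, chi_zero]

variable [Fintype V] [Fintype W]

open Classical in
theorem sum_dot (x : W) : ∑ z, chi (D.dot x z) = if x = 0 then (Fintype.card W : ℝ) else 0 := by
  split_ifs with h
  · rw [h]
    simp [chi_zero]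
  · exact sum_chi (D.dot x) (D.dotnd x h)

open Classical in
theorem sum_dot' (y : W) : ∑ z, chi (D.dot z y) = if y = 0 then (Fintype.card W : ℝ) else 0 := by
  rw [← D.sum_dot y]
  exact Finset.sum_congr rfl (fun z _ => by rw [D.dsymm])

open Classical in
theorem classSum (p : V × W × W) (j : V) :
    ∑ z : W × W, D.C p (j, z) = -(Fintype.card W : ℝ) := by
  have h1 : ∑ z : W × W, D.C p (j, z) = ∑ z1 : W, ∑ z2 : W, D.C p (j, (z1, z2)) := by
    rw [Fintype.sum_prod_type]
  rw [h1]
  have h2 : ∀ z1 : W, ∑ z2 : W, D.C p (j, (z1, z2)) =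
      (fun x : W => D.sg x p.1 j * chi (D.dot x p.2.2) *
        (if x = 0 then (Fintype.card W : ℝ) else 0))
        (((Equiv.addLeft p.2.1).trans (D.E p.1 j).symm) z1) := by
    intro z1
    unfold C
    simp only [map_add (D.dot _), chi_add, Equiv.trans_apply, Equiv.coe_addLeft]
    rw [← Finset.mul_sum, ← Finset.mul_sum, D.sum_dot, mul_assoc]
    rfl
  rw [Finset.sum_congr rfl (fun z1 _ => h2 z1),
    Equiv.sum_comp ((Equiv.addLeft p.2.1).trans (D.E p.1 j).symm)
      (fun x : W => D.sg x p.1 j * chi (D.dot x p.2.2) *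
        (if x = 0 then (Fintype.card W : ℝ) else 0))]
  rw [Finset.sum_eq_single (0 : W)]
  · rw [map_zero, AddMonoidHom.zero_apply, chi_zero, if_pos rfl]
    unfold sg
    rw [if_pos rfl]
    ring
  · intro b _ hb
    rw [if_neg hb, mul_zero]
  · intro h
    exact absurd (Finset.mem_univ _) h

open Classical in
theorem inner_sum (a b x y : W) :
    ∑ z : W, chi (D.dot x (a + z)) * chi (D.dot y (z + b)) =
      if x = y then (Fintype.card W : ℝ) * chi (D.dot x (a + b)) else 0 := by
  have h1 : ∀ z : W, chi (D.dot x (a + z)) * chi (D.dot y (z + b)) =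
      (chi (D.dot x a) * chi (D.dot y b)) * chi (D.dot (x + y) z) := by
    intro z
    rw [map_add (D.dot x), map_add (D.dot y), map_add D.dot x y, AddMonoidHom.add_apply,
      chi_add, chi_add, chi_add]
    ring
  rw [Finset.sum_congr rfl (fun z _ => h1 z), ← Finset.mul_sum, D.sum_dot]
  by_cases hxy : x = y
  · subst hxy
    rw [if_pos (addself x), if_pos rfl, map_add, chi_add]
    ring
  · rw [if_neg (fun h => hxy (add_eq_zero_iff'.1 h)), if_neg hxy, mul_zero]

open Classical in
theorem indicator (a b : W) :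
    (if a = b then (1 : ℝ) else 0) = (Fintype.card W : ℝ)⁻¹ * ∑ u, chi (D.dot u (a + b)) := by
  have hW : (Fintype.card W : ℝ) ≠ 0 := by
    have : 0 < Fintype.card W := Fintype.card_pos
    positivity
  rw [D.sum_dot']
  by_cases h : a = b
  · rw [if_pos h, if_pos (add_eq_zero_iff'.2 h)]
    field_simp
  · rw [if_neg h, if_neg (fun h' => h (add_eq_zero_iff'.1 h')), mul_zero]

open Classical in
/-- the sum over fibres -/
theorem fibre_sum (l : V) (hl : l ≠ 0) (x w : W) :
    ∑ j, (if D.Nx x l j = w then chi (D.Q x l j) else 0) =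
      if x = 0 then (Fintype.card V : ℝ) / Fintype.card W else 0 := by
  have hW : (Fintype.card W : ℝ) ≠ 0 := by
    have : 0 < Fintype.card W := Fintype.card_pos
    positivity
  by_cases hh : D.h x = 0
  · -- `N_x = N`
    have h1 : ∀ j, (if D.Nx x l j = w then chi (D.Q x l j) else 0) =
        (Fintype.card W : ℝ)⁻¹ * ∑ u, (chi (D.dot u w) *
          (chi (D.dot u (D.N l j) + D.Q x l j))) := by
      intro j
      have : (if D.Nx x l j = w then chi (D.Q x l j) else 0) =
        (if D.Nx x l j = w then (1 : ℝ) else 0) * chi (D.Q x l j) := by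
        split_ifs <;> simp
      rw [this, D.indicator, mul_assoc, Finset.sum_mul]
      congr 1
      refine Finset.sum_congr rfl (fun u _ => ?_)
      unfold Nx
      rw [if_pos hh, map_add, chi_add, chi_add]
      ring
    rw [Finset.sum_congr rfl (fun j _ => h1 j), ← Finset.mul_sum, Finset.sum_comm]
    by_cases hx : x = 0
    · rw [if_pos hx]
      have h2 : ∀ u, ∑ j, chi (D.dot u w) * chi (D.dot u (D.N l j) + D.Q x l j) =
          if u = 0 then (Fintype.card V : ℝ) else 0 := by
        intro u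
        have hQ : ∀ j, D.Q x l j = 0 := by
          intro j; unfold Q; rw [if_pos hx]
        simp only [hQ, add_zero]
        split_ifs with hu
        · rw [hu]; simp [chi_zero]
        · rw [← Finset.mul_sum]
          have := sum_chi ((D.dot u).comp (D.N l)) (by
            obtain ⟨j, hj⟩ := D.hN l hl u hu
            exact ⟨j, hj⟩)
          simp only [AddMonoidHom.comp_apply] at this
          rw [this, mul_zero]
      rw [Finset.sum_congr rfl (fun u _ => h2 u)]
      simp
      field_simp
    · rw [if_neg hx]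
      have h2 : ∀ u, ∑ j, chi (D.dot u w) * chi (D.dot u (D.N l j) + D.Q x l j) = 0 := by
        intro u
        have hQ : ∀ j, D.Q x l j = D.M l j := by
          intro j; unfold Q; rw [if_neg hx, if_pos hh]
        simp only [hQ]
        rw [← Finset.mul_sum]
        have := sum_chi ((D.dot u).comp (D.N l) + D.M l) (by
          obtain ⟨j, hj⟩ := D.hM l hl u
          exact ⟨j, hj⟩)
        simp only [AddMonoidHom.add_apply, AddMonoidHom.comp_apply] at this
        rw [this, mul_zero]
      rw [Finset.sum_congr rfl (fun u _ => h2 u)]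
      simp
  · have hx : x ≠ 0 := by
      rintro rfl
      exact hh (map_zero _)
    rw [if_neg hx]
    have hQ : ∀ j, D.Q x l j = D.P l j := by
      intro j; unfold Q; rw [if_neg hx, if_neg hh]
    have hNx : ∀ j, D.Nx x l j = D.h (D.N l j) • D.e0 := by
      intro j; unfold Nx; rw [if_neg hh]
    simp only [hQ, hNx]
    by_cases hw : ∃ κ : ZMod 2, w = κ • D.e0
    · obtain ⟨κ, rfl⟩ := hw
      have hc : ∀ a : ZMod 2, (a • D.e0 = κ • D.e0) ↔ a = κ := by
        intro a
        constructor
        · intro h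
          have := congrArg D.h h
          rwa [hsmul, hsmul, D.he0, mul_one, mul_one] at this
        · rintro rfl; rfl
      simp only [hc]
      have h1 : ∀ j, (if D.h (D.N l j) = κ then chi (D.P l j) else 0) =
          (1 / 2) * (chi (D.P l j + 0 * D.h (D.N l j)) +
            chi κ * chi (D.P l j + 1 * D.h (D.N l j))) := by
        intro j
        rw [chi_add, chi_add]
        rcases zmod2_cases (D.h (D.N l j)) with h | h <;> rcases zmod2_cases κ with h' | h' <;>
          rw [h, h'] <;> simp [chi_zero, chi_one] <;> ring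
      rw [Finset.sum_congr rfl (fun j _ => h1 j), ← Finset.mul_sum, Finset.sum_add_distrib,
        ← Finset.mul_sum]
      have hε : ∀ ε : ZMod 2, ∑ j, chi (D.P l j + ε * D.h (D.N l j)) = 0 := by
        intro ε
        have := sum_chi (D.P l + (AddMonoidHom.mulLeft ε).comp (D.h.comp (D.N l))) (by
          obtain ⟨j, hj⟩ := D.hP l hl ε
          exact ⟨j, hj⟩)
        simpa only [AddMonoidHom.add_apply, AddMonoidHom.comp_apply,
          AddMonoidHom.coe_mulLeft] using this
      rw [hε, hε]
      ring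
    · apply Finset.sum_eq_zero
      intro j _
      rw [if_neg]
      intro h
      exact hw ⟨_, h.symm⟩

open Classical in
theorem fibre_sum_zero (x w : W) :
    ∑ j : V, (if D.Nx x 0 j = w then chi (D.Q x 0 j) else 0) =
      if w = 0 then (Fintype.card V : ℝ) else 0 := by
  have hQ : ∀ j, D.Q x 0 j = 0 := by
    intro j; unfold Q; split_ifs <;> simp
  simp only [hQ, D.Nx_zero, chi_zero]
  by_cases hw : w = 0
  · subst hw; simp
  · rw [if_neg hw]
    apply Finset.sum_eq_zero
    intro j _
    rw [if_neg (fun h => hw h.symm)]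

open Classical in
theorem C_sq_aux (p r : V × W × W) :
    ∑ q, D.C p q * D.C q r =
      (Fintype.card W : ℝ) * ∑ x : W, chi (D.dot x (p.2.2 + r.2.2)) *
        ∑ j : V, (if D.Nx x (p.1 + r.1) j = p.2.1 + r.2.1
          then chi (D.Q x (p.1 + r.1) j) else 0) := by
  have h1 : ∑ q, D.C p q * D.C q r =
      ∑ j : V, ∑ z1 : W, ∑ z2 : W, D.C p (j, (z1, z2)) * D.C (j, (z1, z2)) r := by
    rw [Fintype.sum_prod_type]
    refine Finset.sum_congr rfl (fun j _ => ?_)
    rw [Fintype.sum_prod_type]
  rw [h1]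
  have h2 : ∀ (j : V), ∑ z1 : W, ∑ z2 : W, D.C p (j, (z1, z2)) * D.C (j, (z1, z2)) r =
      ∑ x : W, (Fintype.card W : ℝ) * (chi (D.dot x (p.2.2 + r.2.2)) *
        (if D.Nx x (p.1 + r.1) j = p.2.1 + r.2.1
          then chi (D.Q x (p.1 + r.1) j) else 0)) := by
    intro j
    have h3 : ∀ z1 : W, ∑ z2 : W, D.C p (j, (z1, z2)) * D.C (j, (z1, z2)) r =
        D.sg ((D.E p.1 j).symm (p.2.1 + z1)) p.1 j *
        D.sg ((D.E j r.1).symm (z1 + r.2.1)) j r.1 *
        (if (D.E p.1 j).symm (p.2.1 + z1) = (D.E j r.1).symm (z1 + r.2.1) then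
          (Fintype.card W : ℝ) *
            chi (D.dot ((D.E p.1 j).symm (p.2.1 + z1)) (p.2.2 + r.2.2)) else 0) := by
      intro z1
      rw [← D.inner_sum, Finset.mul_sum]
      refine Finset.sum_congr rfl (fun z2 _ => ?_)
      unfold C
      simp only
      ring
    rw [Finset.sum_congr rfl (fun z1 _ => h3 z1)]
    rw [← Equiv.sum_comp ((D.E p.1 j).trans (Equiv.addLeft p.2.1))]
    refine Finset.sum_congr rfl (fun x _ => ?_)
    have h4 : p.2.1 + (p.2.1 + D.E p.1 j x) = D.E p.1 j x := by
      rw [← add_assoc, addself, zero_add]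
    simp only [Equiv.trans_apply, Equiv.coe_addLeft, h4, Equiv.symm_apply_apply]
    have h5 : (x = (D.E j r.1).symm (p.2.1 + D.E p.1 j x + r.2.1)) ↔
        D.Nx x (p.1 + r.1) j = p.2.1 + r.2.1 := by
      rw [Equiv.eq_symm_apply, E_apply, E_apply, ← D.Nx_add]
      rw [← add_eq_zero_iff', ← add_eq_zero_iff' (w := D.Nx x p.1 j + D.Nx x j r.1)]
      have : x + D.e0 + D.Nx x j r.1 + (p.2.1 + (x + D.e0 + D.Nx x p.1 j) + r.2.1) =
        (x + x) + (D.e0 + D.e0) + (D.Nx x p.1 j + D.Nx x j r.1 + (p.2.1 + r.2.1)) := by abel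
      rw [this, addself, addself, add_zero, zero_add]
    by_cases hc : D.Nx x (p.1 + r.1) j = p.2.1 + r.2.1
    · rw [if_pos (h5.2 hc), ← h5.2 hc, if_pos hc, D.sg_mul]
      ring
    · rw [if_neg (fun h => hc (h5.1 h)), if_neg hc]
      ring
  rw [Finset.sum_congr rfl (fun j _ => h2 j), Finset.sum_comm, Finset.mul_sum]
  refine Finset.sum_congr rfl (fun x _ => ?_)
  rw [← Finset.mul_sum, ← Finset.mul_sum]

open Classical in
theorem C_sq (p r : V × W × W) :
    ∑ q, D.C p q * D.C q r =
      if p.1 = r.1 then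
        (if p = r then (Fintype.card V : ℝ) * (Fintype.card W : ℝ) ^ 2 else 0)
      else (Fintype.card V : ℝ) := by
  have hW : (Fintype.card W : ℝ) ≠ 0 := by
    have : 0 < Fintype.card W := Fintype.card_pos
    positivity
  rw [D.C_sq_aux]
  by_cases hl : p.1 = r.1
  · have hl0 : p.1 + r.1 = 0 := by rw [hl]; exact ZModModule.add_self _
    rw [if_pos hl, hl0]
    simp only [D.fibre_sum_zero]
    rw [← Finset.sum_mul, D.sum_dot']
    by_cases hpr : p = r
    · subst hpr
      rw [if_pos (addself _), if_pos (addself _), if_pos rfl]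
      ring
    · rw [if_neg hpr]
      by_cases h2 : p.2.2 + r.2.2 = 0
      · by_cases h1 : p.2.1 + r.2.1 = 0
        · exfalso
          apply hpr
          exact Prod.ext hl (Prod.ext (add_eq_zero_iff'.1 h1) (add_eq_zero_iff'.1 h2))
        · rw [if_neg h1]; ring
      · rw [if_neg h2]; ring
  · have hl0 : p.1 + r.1 ≠ 0 := by
      intro h
      apply hl
      have : p.1 + r.1 + r.1 = r.1 := by rw [h, zero_add]
      rwa [add_assoc, ZModModule.add_self, add_zero] at this
    rw [if_neg hl]
    simp only [D.fibre_sum _ hl0]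
    rw [Finset.sum_eq_single (0 : W)]
    · rw [if_pos rfl, map_zero, AddMonoidHom.zero_apply, chi_zero]
      field_simp
    · intro b _ hb
      rw [if_neg hb, mul_zero]
    · intro h
      exact absurd (Finset.mem_univ _) h

end Data

end Pool.Agent.H68.TV
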