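import Pool.Agent.H68.TV.Graph

set_option autoImplicit false
set_option linter.unusedSectionVars false

namespace Pool.Agent.H68.TV

open Finset

section forms

variable {K : Type} [Field K] [Algebra (ZMod 2) K]

/-- a trace-like functional -/
structure Tr2 (K : Type) [Field K] [Algebra (ZMod 2) K] where
  t : K →ₗ[ZMod 2] ZMod 2
  one : t 1 = 1
  sq : ∀ x, t (x ^ 2) = t x
  nd : ∀ a, a ≠ 0 → ∃ b, t (a * b) ≠ 0

variable (T : Tr2 K)

theorem add_self_K (x : K) : x + x = 0 := ZModModule.add_self x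

theorem z2_mul_self (a : ZMod 2) : a * a = a := by revert a; decide

theorem z2_add_self (a : ZMod 2) : a + a = 0 := by revert a; decide

theorem dec_aux : ∀ s τ a b d : ZMod 2, τ = d * b → τ * a + s = 0 → b = τ * a + s * a →
    s = 0 ∧ τ = 0 := by decide

/-- `S_g` -/
noncomputable def Sf (g : K) : (ZMod 2 × K) →+ (ZMod 2 × K) →+ ZMod 2 :=
  AddMonoidHom.mk' (fun v => AddMonoidHom.mk' (fun w =>
    T.t (g ^ 2 * v.2 * w.2) + T.t g * T.t v.2 * T.t w.2 + v.1 * T.t (g * w.2)
      + w.1 * T.t (g * v.2)) (by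
      intro a b
      simp only [Prod.fst_add, Prod.snd_add, mul_add, map_add]
      ring)) (by
      intro a b
      ext w
      simp only [Prod.fst_add, Prod.snd_add, mul_add, add_mul, map_add, AddMonoidHom.mk'_apply,
        AddMonoidHom.add_apply]
      ring)

theorem Sf_apply (g : K) (v w : ZMod 2 × K) : Sf T g v w =
    T.t (g ^ 2 * v.2 * w.2) + T.t g * T.t v.2 * T.t w.2 + v.1 * T.t (g * w.2)
      + w.1 * T.t (g * v.2) := rfl

theorem Sf_symm (g : K) (v w : ZMod 2 × K) : Sf T g v w = Sf T g w v := by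
  rw [Sf_apply, Sf_apply]
  have : g ^ 2 * v.2 * w.2 = g ^ 2 * w.2 * v.2 := by ring
  rw [this]
  ring

theorem sq_add_K (x y : K) : (x + y) ^ 2 = x ^ 2 + y ^ 2 := by
  have : (x + y) ^ 2 = x ^ 2 + y ^ 2 + (x * y + x * y) := by ring
  rw [this, add_self_K, add_zero]

theorem Sf_add (g g' : K) (v w : ZMod 2 × K) : Sf T (g + g') v w = Sf T g v w + Sf T g' v w := by
  rw [Sf_apply, Sf_apply, Sf_apply, sq_add_K]
  simp only [add_mul, map_add]
  ring

/-- `g ↦ S_g v w` as a homomorphism -/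
noncomputable def Shom (v w : ZMod 2 × K) : K →+ ZMod 2 :=
  AddMonoidHom.mk' (fun g => Sf T g v w) (fun g g' => Sf_add T g g' v w)

theorem Sf_nonsing (g : K) (hg : g ≠ 0) (v : ZMod 2 × K) (hv : v ≠ 0) : ∃ w, Sf T g v w ≠ 0 := by
  by_contra hcon
  push Not at hcon
  obtain ⟨s, i⟩ := v
  have h1 : T.t (g * i) = 0 := by
    have := hcon (1, 0)
    rw [Sf_apply] at this
    simpa using this
  -- vector identity
  have h2 : g ^ 2 * i + (T.t g * T.t i) • (1 : K) + s • g = 0 := by
    by_contra hne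
    obtain ⟨j, hj⟩ := T.nd _ hne
    apply hj
    have := hcon (0, j)
    rw [Sf_apply] at this
    simp only [zero_mul, add_zero] at this
    rw [add_mul, add_mul, map_add, map_add, smul_mul_assoc, smul_mul_assoc, map_smul, map_smul,
      one_mul, smul_eq_mul, smul_eq_mul]
    exact this
  set τ := T.t g * T.t i with hτ
  -- g i = τ/g + s
  have h3 : g * i = τ • g⁻¹ + s • (1 : K) := by
    have e1 : g⁻¹ * (g ^ 2 * i + τ • (1 : K) + s • g) = g * i + (τ • g⁻¹ + s • (1 : K)) := by
      rw [mul_add, mul_add, mul_smul_comm, mul_smul_comm, mul_one, inv_mul_cancel₀ hg]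
      have : g⁻¹ * (g ^ 2 * i) = g * i := by field_simp
      rw [this, add_assoc]
    rw [h2, mul_zero] at e1
    exact (Data.add_eq_zero_iff').1 e1.symm
  have h4 : i = τ • (g⁻¹) ^ 2 + s • g⁻¹ := by
    have e1 : g⁻¹ * (g * i) = i := by rw [← mul_assoc, inv_mul_cancel₀ hg, one_mul]
    rw [← e1, h3, mul_add, mul_smul_comm, mul_smul_comm, mul_one, pow_two]
  have h5 : τ * T.t g⁻¹ + s = 0 := by
    have := congrArg T.t h3
    rw [h1, map_add, map_smul, map_smul, T.one, smul_eq_mul, smul_eq_mul, mul_one] at this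
    exact this.symm
  have h6 : T.t i = τ * T.t g⁻¹ + s * T.t g⁻¹ := by
    have := congrArg T.t h4
    rw [map_add, map_smul, map_smul, T.sq, smul_eq_mul, smul_eq_mul] at this
    exact this
  have h7 : s = 0 ∧ τ = 0 := dec_aux s τ (T.t g⁻¹) (T.t i) (T.t g) hτ h5 h6
  obtain ⟨hs, ht⟩ := h7
  apply hv
  rw [hs, ht, zero_smul, zero_smul, add_zero] at h4
  rw [hs, h4]
  rfl

/-- `B_g` -/
noncomputable def Bf (g : K) : (ZMod 2 × K) →+ (ZMod 2 × K) →+ ZMod 2 :=
  AddMonoidHom.mk' (fun v => AddMonoidHom.mk' (fun w =>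
    T.t (g ^ 2 * v.2 * w.2) + T.t (g * v.2) * T.t (g * w.2) + v.1 * T.t (g * w.2)
      + w.1 * T.t (g * v.2)) (by
      intro a b
      simp only [Prod.fst_add, Prod.snd_add, mul_add, map_add]
      ring)) (by
      intro a b
      ext w
      simp only [Prod.fst_add, Prod.snd_add, mul_add, add_mul, map_add, AddMonoidHom.mk'_apply,
        AddMonoidHom.add_apply]
      ring)

theorem Bf_apply (g : K) (v w : ZMod 2 × K) : Bf T g v w =
    T.t (g ^ 2 * v.2 * w.2) + T.t (g * v.2) * T.t (g * w.2) + v.1 * T.t (g * w.2)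
      + w.1 * T.t (g * v.2) := rfl

theorem Bf_symm (g : K) (v w : ZMod 2 × K) : Bf T g v w = Bf T g w v := by
  rw [Bf_apply, Bf_apply]
  have : g ^ 2 * v.2 * w.2 = g ^ 2 * w.2 * v.2 := by ring
  rw [this]
  ring

theorem Bf_alt (g : K) (v : ZMod 2 × K) : Bf T g v v = 0 := by
  rw [Bf_apply]
  have : g ^ 2 * v.2 * v.2 = (g * v.2) ^ 2 := by ring
  rw [this, T.sq, z2_mul_self, z2_add_self, zero_add, z2_add_self]

theorem Bf_one (v w : ZMod 2 × K) : Bf T 1 v w = Sf T 1 v w := by
  rw [Bf_apply, Sf_apply, T.one, one_mul, one_mul, one_mul]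

theorem Bf_zero (v w : ZMod 2 × K) : Bf T 0 v w = 0 := by
  rw [Bf_apply]; simp

theorem Bf_nonsing (g h : K) (hgh : g ≠ h) (v : ZMod 2 × K) (hv : v ≠ 0) :
    ∃ w, Bf T g v w + Bf T h v w ≠ 0 := by
  by_contra hcon
  push Not at hcon
  obtain ⟨s, i⟩ := v
  have hgh' : g + h ≠ 0 := fun h' => hgh (Data.add_eq_zero_iff'.1 h')
  have h1 : T.t (g * i) + T.t (h * i) = 0 := by
    have := hcon (1, 0)
    rw [Bf_apply, Bf_apply] at this
    simpa using this
  have h1' : T.t (h * i) = T.t (g * i) := by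
    revert h1
    generalize T.t (g * i) = a
    generalize T.t (h * i) = b
    revert a b
    decide
  set τ := T.t (g * i) with hτ
  have h2 : (g + h) ^ 2 * i + (τ + s) • (g + h) = 0 := by
    by_contra hne
    obtain ⟨j, hj⟩ := T.nd _ hne
    apply hj
    have := hcon (0, j)
    rw [Bf_apply, Bf_apply] at this
    simp only [zero_mul, add_zero, h1', ← hτ] at this
    rw [add_mul, map_add, smul_mul_assoc, map_smul, sq_add_K, add_mul, add_mul, map_add,
      add_mul, map_add, smul_eq_mul]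
    linear_combination this
  have h3 : (g + h) * i = (τ + s) • (1 : K) := by
    have e1 : (g + h)⁻¹ * ((g + h) ^ 2 * i + (τ + s) • (g + h)) =
        (g + h) * i + (τ + s) • (1 : K) := by
      rw [mul_add, mul_smul_comm, inv_mul_cancel₀ hgh']
      have : (g + h)⁻¹ * ((g + h) ^ 2 * i) = (g + h) * i := by field_simp
      rw [this]
    rw [h2, mul_zero] at e1
    exact (Data.add_eq_zero_iff').1 e1.symm
  have h4 : τ + s = 0 := by
    have := congrArg T.t h3
    rw [map_smul, T.one, add_mul, map_add, h1, smul_eq_mul, mul_one] at this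
    exact this.symm
  rw [h4, zero_smul] at h3
  have h5 : i = 0 := by
    rcases mul_eq_zero.1 h3 with h | h
    · exact absurd h hgh'
    · exact h
  have h6 : τ = 0 := by rw [hτ, h5, mul_zero, map_zero]
  rw [h6, zero_add] at h4
  apply hv
  rw [h4, h5]
  rfl

end forms

section data

variable {K : Type} [Field K] [Algebra (ZMod 2) K] (T : Tr2 K)

/-- dot product -/
noncomputable def dotp (m : ℕ) : (Fin m → ZMod 2) →+ (Fin m → ZMod 2) →+ ZMod 2 :=
  AddMonoidHom.mk' (fun u => AddMonoidHom.mk' (fun w => ∑ k, u k * w k) (by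
      intro a b
      simp only [Pi.add_apply, mul_add, Finset.sum_add_distrib])) (by
      intro a b
      ext w
      simp [add_mul, Finset.sum_add_distrib])

theorem dotp_apply (m : ℕ) (u w : Fin m → ZMod 2) : dotp m u w = ∑ k, u k * w k := rfl

/-- the map `N` -/
noncomputable def Nf (m : ℕ) (b : Fin (m + 1) → K) :
    (ZMod 2 × K) →+ (ZMod 2 × K) →+ (Fin m → ZMod 2) :=
  AddMonoidHom.mk' (fun v => AddMonoidHom.mk' (fun w => fun k => Sf T (b k.castSucc) v w) (by
      intro a b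
      ext k
      simp)) (by
      intro a b
      ext w
      simp)

theorem Nf_apply (m : ℕ) (b : Fin (m + 1) → K) (v w : ZMod 2 × K) (k : Fin m) :
    Nf T m b v w k = Sf T (b k.castSucc) v w := rfl

theorem Sf_sum (m : ℕ) (b : Fin (m + 1) → K) (c : Fin (m + 1) → ZMod 2) (v w : ZMod 2 × K) :
    Sf T (∑ k, c k • b k) v w = ∑ k, c k * Sf T (b k) v w := by
  have h : ∀ g, Sf T g v w = Shom T v w g := fun g => rfl
  rw [h, map_sum]
  refine Finset.sum_congr rfl (fun k _ => ?_)
  rw [h]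
  rcases zmod2_cases (c k) with h0 | h0 <;> rw [h0] <;> simp

theorem dot_N (m : ℕ) (b : Fin (m + 1) → K) (u : Fin m → ZMod 2) (ε : ZMod 2)
    (v w : ZMod 2 × K) :
    dotp m u (Nf T m b v w) + ε * Sf T (b (Fin.last m)) v w =
      Sf T (∑ k, (Fin.snoc (α := fun _ => ZMod 2) u ε : Fin (m + 1) → ZMod 2) k • b k) v w := by
  rw [Sf_sum, Fin.sum_univ_castSucc, dotp_apply]
  simp only [Fin.snoc_castSucc, Fin.snoc_last, Nf_apply]

theorem comb_ne_zero (m : ℕ) (b : Fin (m + 1) → K) (hb : LinearIndependent (ZMod 2) b)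
    (c : Fin (m + 1) → ZMod 2) (hc : c ≠ 0) : ∑ k, c k • b k ≠ 0 := by
  intro h
  apply hc
  funext k
  exact Fintype.linearIndependent_iff.1 hb c h k

theorem snoc_ne_zero (m : ℕ) (u : Fin m → ZMod 2) (ε : ZMod 2) (h : u ≠ 0 ∨ ε ≠ 0) :
    (Fin.snoc (α := fun _ => ZMod 2) u ε : Fin (m + 1) → ZMod 2) ≠ 0 := by
  intro h'
  rcases h with h | h
  · apply h
    funext k
    have := congrFun h' k.castSucc
    rwa [Fin.snoc_castSucc] at this
  · apply h
    have := congrFun h' (Fin.last m)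
    rwa [Fin.snoc_last] at this

/-- the data -/
noncomputable def mkData (m : ℕ) (b : Fin (m + 1 + 1) → K)
    (hb : LinearIndependent (ZMod 2) b) (hb0 : b 0 = 1) (g : K) (hg0 : g ≠ 0) (hg1 : g ≠ 1) :
    Data (ZMod 2 × K) (Fin (m + 1) → ZMod 2) where
  N := Nf T (m + 1) b
  M := Sf T (b (Fin.last (m + 1)))
  P := Bf T g
  dot := dotp (m + 1)
  h := Pi.evalAddMonoidHom (fun _ : Fin (m + 1) => ZMod 2) 0
  e0 := Pi.single 0 1
  Nsymm i j := by
    funext k
    rw [Nf_apply, Nf_apply, Sf_symm]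
  Msymm i j := Sf_symm T _ i j
  Psymm i j := Bf_symm T _ i j
  dsymm x y := by
    rw [dotp_apply, dotp_apply]
    exact Finset.sum_congr rfl (fun k _ => mul_comm _ _)
  he0 := by simp
  Nalt i := by
    rw [Pi.evalAddMonoidHom_apply, Nf_apply, Fin.castSucc_zero, hb0, ← Bf_one, Bf_alt]
  Palt i := Bf_alt T g i
  dotnd x hx := by
    obtain ⟨k, hk⟩ : ∃ k, x k ≠ 0 := by
      by_contra hcon
      push Not at hcon
      exact hx (funext hcon)
    refine ⟨Pi.single k 1, ?_⟩
    rw [dotp_apply]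
    simpa [Pi.single_apply] using hk
  hN l hl u hu := by
    obtain ⟨j, hj⟩ := Sf_nonsing T _ (comb_ne_zero (m + 1) b hb _
      (snoc_ne_zero (m + 1) u 0 (Or.inl hu))) l hl
    refine ⟨j, ?_⟩
    rw [← dot_N, zero_mul, add_zero] at hj
    exact hj
  hM l hl u := by
    obtain ⟨j, hj⟩ := Sf_nonsing T _ (comb_ne_zero (m + 1) b hb _
      (snoc_ne_zero (m + 1) u 1 (Or.inr (by decide)))) l hl
    refine ⟨j, ?_⟩
    rw [← dot_N, one_mul] at hj
    exact hj
  hP l hl ε := by
    rcases zmod2_cases ε with rfl | rfl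
    · obtain ⟨j, hj⟩ := Bf_nonsing T g 0 hg0 l hl
      refine ⟨j, ?_⟩
      rw [Bf_zero, add_zero] at hj
      rw [zero_mul, add_zero]
      exact hj
    · obtain ⟨j, hj⟩ := Bf_nonsing T g 1 hg1 l hl
      refine ⟨j, ?_⟩
      rw [one_mul, Pi.evalAddMonoidHom_apply, Nf_apply, Fin.castSucc_zero, hb0, ← Bf_one]
      exact hj
  hA l hl := by
    obtain ⟨j, hj⟩ := Sf_nonsing T 1 one_ne_zero l hl
    refine ⟨j, ?_⟩
    rw [Pi.evalAddMonoidHom_apply, Nf_apply, Fin.castSucc_zero, hb0]
    exact hj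

end data

section exist

/-- the trace of a finite field of odd degree over `ZMod 2` -/
noncomputable def trK (K : Type) [Field K] [Algebra (ZMod 2) K] [Finite K]
    (hodd : Odd (Module.finrank (ZMod 2) K)) : Tr2 K where
  t := Algebra.trace (ZMod 2) K
  one := by
    have h := Algebra.trace_algebraMap (R := ZMod 2) (S := K) 1
    rw [map_one] at h
    rw [h, nsmul_eq_mul, mul_one]
    obtain ⟨k, hk⟩ := hodd
    rw [hk]
    push_cast
    have h2 : (2 : ZMod 2) = 0 := by decide
    rw [h2]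
    ring
  sq := by
    intro x
    have : FiniteDimensional (ZMod 2) K := Module.Finite.of_finite
    have h := Algebra.trace_eq_of_algEquiv
      (FiniteField.frobeniusAlgEquivOfAlgebraic (ZMod 2) K) x
    rw [← h]
    congr 1
  nd := by
    intro a ha
    have : FiniteDimensional (ZMod 2) K := Module.Finite.of_finite
    by_contra hcon
    push Not at hcon
    apply ha
    exact (traceForm_nondegenerate (ZMod 2) K).1 a (fun b => by
      rw [Algebra.traceForm_apply]; exact hcon b)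

theorem exists_basis (K : Type) [Field K] [Algebra (ZMod 2) K] [Finite K] (n : ℕ)
    (hn : Module.finrank (ZMod 2) K = n + 1) :
    ∃ b : Fin (n + 1) → K, LinearIndependent (ZMod 2) b ∧ b 0 = 1 := by
  have : FiniteDimensional (ZMod 2) K := Module.Finite.of_finite
  let pb := Field.powerBasisOfFiniteOfSeparable (ZMod 2) K
  have hdim : pb.dim = n + 1 := by rw [← hn, pb.finrank]
  have hli := pb.basis.linearIndependent
  rw [pb.coe_basis] at hli
  rw [hdim] at hli
  exact ⟨_, hli, by simp⟩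

theorem main (N : ℕ) : ∃ n : ℕ, N ≤ n ∧ ∃ G : SimpleGraph (Fin n), ∃ inst : DecidableRel G.Adj,
      G.Connected ∧
      (Finset.univ.image (fun v => G.degree v)).card = 3 ∧
      (G.adjMatrix ℝ).charpoly.roots.toFinset.card = 3 := by
  classical
  -- `e = N + 1`, `m = 2 e`, `K` of degree `m + 1 = 2 e + 1`
  set e : ℕ := N + 1 with he
  let K := GaloisField 2 (2 * e + 1)
  have hfr : Module.finrank (ZMod 2) K = 2 * e + 1 := GaloisField.finrank 2 (by omega)
  have hcard : Nat.card K = 2 ^ (2 * e + 1) := GaloisField.card 2 _ (by omega)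
  have hfin : Finite K := by
    apply Nat.finite_of_card_ne_zero
    rw [hcard]
    positivity
  have : Fintype K := Fintype.ofFinite K
  have hodd : Odd (Module.finrank (ZMod 2) K) := by rw [hfr]; exact ⟨e, rfl⟩
  let T := trK K hodd
  have hm : 2 * e = (2 * N + 1) + 1 := by omega
  obtain ⟨b, hb, hb0⟩ := exists_basis K ((2 * N + 1) + 1) (by rw [hfr, hm])
  have hcardF : Fintype.card K = 2 ^ (2 * e + 1) := by
    rw [← Nat.card_eq_fintype_card, hcard]
  have h8 : 2 < Fintype.card K := by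
    rw [hcardF]
    calc 2 < 2 ^ 3 := by norm_num
      _ ≤ 2 ^ (2 * e + 1) := Nat.pow_le_pow_right (by norm_num) (by omega)
  obtain ⟨g, hg0, hg1⟩ : ∃ g : K, g ≠ 0 ∧ g ≠ 1 := by
    by_contra hcon
    push Not at hcon
    have : (Finset.univ : Finset K) ⊆ {0, 1} := by
      intro x _
      rw [Finset.mem_insert, Finset.mem_singleton]
      by_cases hx : x = 0
      · left; exact hx
      · right; exact hcon x hx
    have h2 := Finset.card_le_card this
    rw [Finset.card_univ] at h2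
    have h3 : ({0, 1} : Finset K).card ≤ 2 := Finset.card_le_two
    omega
  let D := mkData T (2 * N + 1) b hb hb0 g hg0 hg1
  have hW : (Fintype.card (Fin (2 * N + 1 + 1) → ZMod 2) : ℝ) = ((2 : ℝ) ^ e) ^ 2 := by
    rw [Fintype.card_fun, ZMod.card, Fintype.card_fin]
    push_cast
    rw [← pow_mul]
    congr 1
    omega
  have hV : (Fintype.card (ZMod 2 × K) : ℝ) = 4 * ((2 : ℝ) ^ e) ^ 2 := by
    rw [Fintype.card_prod, ZMod.card, hcardF]
    push_cast
    rw [← pow_mul]
    ring
  have hc : (2 : ℝ) ≤ (2 : ℝ) ^ e := by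
    calc (2 : ℝ) = 2 ^ 1 := by norm_num
      _ ≤ 2 ^ e := pow_le_pow_right₀ (by norm_num) (by omega)
  obtain ⟨n, hn, hG⟩ := D.final ((2 : ℝ) ^ e) hc hW hV
  refine ⟨n, ?_, hG⟩
  have h1 : (N : ℝ) ≤ (2 : ℝ) ^ e := by
    have h2 : N < 2 ^ N := Nat.lt_two_pow_self
    have h3 : 2 ^ N ≤ 2 ^ e := Nat.pow_le_pow_right (by norm_num) (by omega)
    have h4 : N ≤ 2 ^ e := by omega
    exact_mod_cast h4
  exact_mod_cast h1.trans hn

end exist

end Pool.Agent.H68.TV
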