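import Mathlib

set_option autoImplicit false

namespace Pool.Agent.H68.TV

open Finset Matrix

theorem root_iff {n : ℕ} (M : Matrix (Fin n) (Fin n) ℝ) (t : ℝ) :
    t ∈ M.charpoly.roots.toFinset ↔ ∃ v : Fin n → ℝ, v ≠ 0 ∧ ∀ a, ∑ b, M a b * v b = t * v a := by
  rw [Multiset.mem_toFinset, Polynomial.mem_roots (Matrix.charpoly_monic M).ne_zero,
    Polynomial.IsRoot.def, Matrix.eval_charpoly, ← Matrix.exists_mulVec_eq_zero_iff]
  constructor
  · rintro ⟨v, hv, h⟩
    refine ⟨v, hv, fun a => ?_⟩
    have := congrFun h a
    rw [Matrix.sub_mulVec, Pi.sub_apply, Matrix.scalar_apply, Matrix.mulVec_diagonal,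
      Pi.zero_apply, sub_eq_zero] at this
    rw [this]
    rfl
  · rintro ⟨v, hv, h⟩
    refine ⟨v, hv, ?_⟩
    ext a
    rw [Matrix.sub_mulVec, Pi.sub_apply, Matrix.scalar_apply, Matrix.mulVec_diagonal,
      Pi.zero_apply, sub_eq_zero, ← h a]
    rfl

theorem graph_main {n : ℕ} (A : Fin n → Fin n → ℝ) (α : Fin n → ℝ) (s : ℝ)
    (hA : ∀ a b, A a b = 0 ∨ A a b = 1) (hsymm : ∀ a b, A a b = A b a) (hdiag : ∀ a, A a a = 0)
    (hs : 0 < s) (hα : ∀ a, 0 < α a)
    (hsq : ∀ a b, ∑ c, A a c * A c b = (if a = b then s ^ 2 else 0) + α a * α b)
    (p q : Fin n) (hpq : p ≠ q) (hApq : A p q = 0)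
    (hcard : (Finset.univ.image α).card = 3) :
    ∃ G : SimpleGraph (Fin n), ∃ inst : DecidableRel G.Adj,
      G.Connected ∧
      (Finset.univ.image (fun v => G.degree v)).card = 3 ∧
      (G.adjMatrix ℝ).charpoly.roots.toFinset.card = 3 := by
  classical
  let G : SimpleGraph (Fin n) :=
    { Adj := fun a b => A a b = 1
      symm := ⟨fun a b h => by rw [hsymm]; exact h⟩
      loopless := ⟨fun a h => by rw [hdiag] at h; norm_num at h⟩ }
  have hadj : ∀ a b, G.Adj a b ↔ A a b = 1 := fun a b => Iff.rfl
  refine ⟨G, Classical.decRel _, ?_, ?_, ?_⟩
  · -- connected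
    have : Nonempty (Fin n) := ⟨p⟩
    refine SimpleGraph.Connected.mk ?_
    intro a b
    have hne : ∑ c, A a c * A c b ≠ 0 := by
      rw [hsq]
      have : 0 < α a * α b := mul_pos (hα a) (hα b)
      split_ifs
      · positivity
      · linarith
    obtain ⟨c, _, hc⟩ := Finset.exists_ne_zero_of_sum_ne_zero hne
    have h1 : A a c = 1 := by
      rcases hA a c with h | h
      · exfalso; apply hc; rw [h, zero_mul]
      · exact h
    have h2 : A c b = 1 := by
      rcases hA c b with h | h
      · exfalso; apply hc; rw [h, mul_zero]
      · exact h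
    exact (SimpleGraph.Adj.reachable ((hadj a c).2 h1)).trans
      (SimpleGraph.Adj.reachable ((hadj c b).2 h2))
  · -- degrees
    have hdeg : ∀ v, ((G.degree v : ℕ) : ℝ) = s ^ 2 + (α v) ^ 2 := by
      intro v
      have h1 := hsq v v
      rw [if_pos rfl] at h1
      rw [pow_two (α v), ← h1]
      have h2 : ∀ c, A v c * A c v = if G.Adj v c then (1 : ℝ) else 0 := by
        intro c
        rw [← hsymm v c]
        rcases hA v c with h | h
        · rw [if_neg (by rw [hadj, h]; norm_num), h]; norm_num
        · rw [if_pos (by rw [hadj, h]), h]; norm_num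
      rw [Finset.sum_congr rfl (fun c _ => h2 c), Finset.sum_boole]
      congr 1
      rw [SimpleGraph.degree, SimpleGraph.neighborFinset_eq_filter]
    have h1 : (Finset.univ.image (fun v => G.degree v)).card =
        ((Finset.univ.image (fun v => G.degree v)).image (fun k : ℕ => (k : ℝ))).card :=
      (Finset.card_image_of_injective _ Nat.cast_injective).symm
    have h2 : ((Finset.univ.image (fun v => G.degree v)).image (fun k : ℕ => (k : ℝ))) =
        (Finset.univ.image α).image (fun t => s ^ 2 + t ^ 2) := by
      rw [Finset.image_image, Finset.image_image]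
      apply Finset.image_congr
      intro v _
      simp only [Function.comp]
      exact hdeg v
    rw [h1, h2, Finset.card_image_of_injOn, hcard]
    intro x hx y hy hxy
    simp only [Finset.coe_image, Finset.coe_univ, Set.image_univ, Set.mem_range] at hx hy
    obtain ⟨a, rfl⟩ := hx
    obtain ⟨b, rfl⟩ := hy
    simp only [add_right_inj] at hxy
    exact (pow_left_inj₀ (hα a).le (hα b).le (by norm_num)).1 hxy
  · -- eigenvalues
    -- the adjacency matrix
    have hM : ∀ a b, (G.adjMatrix ℝ) a b = A a b := by
      intro a b
      rw [SimpleGraph.adjMatrix_apply]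
      rcases hA a b with h | h
      · rw [if_neg (by rw [hadj, h]; norm_num), h]
      · rw [if_pos (by rw [hadj, h]), h]
    -- β = A α
    set β : Fin n → ℝ := fun a => ∑ b, A a b * α b with hβ
    have hcomm : ∀ a b, α a * β b = β a * α b := by
      intro a b
      -- A^3 computed in two ways
      have e1 : ∑ c, A a c * (∑ d, A c d * A d b) = ∑ d, (∑ c, A a c * A c d) * A d b := by
        simp_rw [Finset.mul_sum, Finset.sum_mul]
        rw [Finset.sum_comm]
        refine Finset.sum_congr rfl (fun d _ => Finset.sum_congr rfl (fun c _ => by ring))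
      simp_rw [hsq] at e1
      simp_rw [mul_add, add_mul, Finset.sum_add_distrib] at e1
      have e2 : ∑ c, A a c * (if c = b then s ^ 2 else 0) = A a b * s ^ 2 := by
        simp
      have e3 : ∑ d, (if a = d then s ^ 2 else 0) * A d b = s ^ 2 * A a b := by
        simp
      rw [e2, e3] at e1
      have e4 : ∑ c, A a c * (α c * α b) = β a * α b := by
        rw [hβ]; simp only; rw [Finset.sum_mul]
        exact Finset.sum_congr rfl (fun c _ => by ring)
      have e5 : ∑ d, α a * α d * A d b = α a * β b := by
        rw [hβ]; simp only; rw [Finset.mul_sum]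
        exact Finset.sum_congr rfl (fun c _ => by rw [hsymm c b]; ring)
      rw [e4, e5] at e1
      linarith
    set μ : ℝ := β p / α p with hμ
    have hβμ : ∀ a, β a = μ * α a := by
      intro a
      rw [hμ]
      have := hcomm a p
      have hp := (hα p).ne'
      field_simp
      linarith
    have hsqv : ∀ (v : Fin n → ℝ) (a : Fin n), ∑ b, A a b * (∑ c, A b c * v c) =
        s ^ 2 * v a + (∑ c, α c * v c) * α a := by
      intro v a
      have : ∑ b, A a b * (∑ c, A b c * v c) = ∑ c, (∑ b, A a b * A b c) * v c := by
        simp_rw [Finset.mul_sum, Finset.sum_mul]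
        rw [Finset.sum_comm]
        refine Finset.sum_congr rfl (fun d _ => Finset.sum_congr rfl (fun c _ => by ring))
      rw [this]
      simp_rw [hsq, add_mul, Finset.sum_add_distrib]
      congr 1
      · simp
      · rw [Finset.sum_mul]
        exact Finset.sum_congr rfl (fun c _ => by ring)
    have hμ2 : μ ^ 2 = s ^ 2 + ∑ c, α c * α c := by
      have h1 := hsqv α p
      have h2 : ∑ b, A p b * (∑ c, A b c * α c) = μ * (μ * α p) := by
        have : ∀ b, (∑ c, A b c * α c) = μ * α b := hβμ
        simp_rw [this]
        rw [← hβμ p, hβ]
        simp only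
        rw [Finset.mul_sum]
        exact Finset.sum_congr rfl (fun c _ => by ring)
      rw [h2] at h1
      have hp := (hα p).ne'
      have : (μ ^ 2 - (s ^ 2 + ∑ c, α c * α c)) * α p = 0 := by linarith
      rcases mul_eq_zero.1 this with h | h
      · linarith
      · exact absurd h hp
    have hpos : 0 < ∑ c, α c * α c :=
      Finset.sum_pos (fun c _ => mul_pos (hα c) (hα c)) ⟨p, Finset.mem_univ _⟩
    have hμs : μ ≠ s := by
      intro h
      rw [h] at hμ2
      linarith
    have hμs' : μ ≠ -s := by
      intro h
      rw [h] at hμ2
      have : (-s) ^ 2 = s ^ 2 := by ring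
      linarith
    have hss : s ≠ -s := by intro h; linarith
    have key : (G.adjMatrix ℝ).charpoly.roots.toFinset = {s, -s, μ} := by
      ext t
      rw [root_iff]
      simp only [hM]
      rw [Finset.mem_insert, Finset.mem_insert, Finset.mem_singleton]
      constructor
      · rintro ⟨v, hv, h⟩
        by_cases h0 : ∑ c, α c * v c = 0
        · -- t^2 = s^2
          obtain ⟨a, ha⟩ : ∃ a, v a ≠ 0 := by
            by_contra hcon
            push Not at hcon
            exact hv (funext hcon)
          have h1 := hsqv v a
          simp_rw [h] at h1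
          have h2 : ∑ b, A a b * (t * v b) = t * (t * v a) := by
            rw [← h a, Finset.mul_sum]
            exact Finset.sum_congr rfl (fun c _ => by ring)
          rw [h2, h0, zero_mul, add_zero] at h1
          have h3 : (t - s) * (t + s) * v a = 0 := by linarith
          rcases mul_eq_zero.1 h3 with h4 | h4
          · rcases mul_eq_zero.1 h4 with h5 | h5
            · left; linarith
            · right; left; linarith
          · exact absurd h4 ha
        · right; right
          have h1 : ∑ a, α a * (∑ b, A a b * v b) = ∑ b, (∑ a, A b a * α a) * v b := by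
            simp_rw [Finset.mul_sum, Finset.sum_mul]
            rw [Finset.sum_comm]
            refine Finset.sum_congr rfl (fun d _ => Finset.sum_congr rfl (fun c _ => ?_))
            rw [hsymm c d]; ring
          simp_rw [h] at h1
          have h2 : ∀ b, (∑ a, A b a * α a) = μ * α b := hβμ
          simp_rw [h2] at h1
          have h3 : ∑ a, α a * (t * v a) = t * ∑ c, α c * v c := by
            rw [Finset.mul_sum]
            exact Finset.sum_congr rfl (fun c _ => by ring)
          have h4 : ∑ a, μ * α a * v a = μ * ∑ c, α c * v c := by
            rw [Finset.mul_sum]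
            exact Finset.sum_congr rfl (fun c _ => by ring)
          rw [h3, h4] at h1
          exact mul_right_cancel₀ h0 h1
      · -- existence
        -- general vector
        have hgen : ∀ ε : ℝ, ε ^ 2 = 1 → (ε * s * α q - A p q * α p ≠ 0) →
            ∃ v : Fin n → ℝ, v ≠ 0 ∧ ∀ a, ∑ b, A a b * v b = (ε * s) * v a := by
          intro ε hε hne
          -- w = α_q e_p − α_p e_q
          let w : Fin n → ℝ := fun a => (if a = p then α q else 0) - (if a = q then α p else 0)
          have hw : ∑ c, α c * w c = 0 := by
            simp only [w, mul_sub, Finset.sum_sub_distrib]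
            simp
            ring
          let v : Fin n → ℝ := fun a => (∑ b, A a b * w b) + ε * s * w a
          refine ⟨v, ?_, ?_⟩
          · intro hv
            have hvp := congrFun hv p
            simp only [v, Pi.zero_apply] at hvp
            have h1 : ∑ b, A p b * w b = A p p * α q - A p q * α p := by
              simp only [w, mul_sub, Finset.sum_sub_distrib]
              simp
            have h2 : w p = α q := by
              simp [w, hpq]
            rw [h1, h2, hdiag] at hvp
            apply hne
            linarith
          · intro a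
            simp only [v, mul_add, Finset.sum_add_distrib]
            rw [hsqv w a, hw, zero_mul, add_zero]
            have : ∑ b, A a b * (ε * s * w b) = ε * s * ∑ b, A a b * w b := by
              rw [Finset.mul_sum]
              exact Finset.sum_congr rfl (fun c _ => by ring)
            rw [this]
            have : ε * s * (ε * s * w a) = ε ^ 2 * (s ^ 2 * w a) := by ring
            rw [this, hε]
            ring
        rintro (rfl | rfl | rfl)
        · have := hgen 1 (by norm_num) (by
            rw [hApq]
            have := mul_pos hs (hα q)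
            intro h; linarith)
          simpa using this
        · have := hgen (-1) (by norm_num) (by
            rw [hApq]
            have := mul_pos hs (hα q)
            intro h; linarith)
          simpa using this
        · refine ⟨α, ?_, hβμ⟩
          intro h
          have := congrFun h p
          exact (hα p).ne' this
    rw [key]
    rw [Finset.card_insert_of_notMem, Finset.card_insert_of_notMem, Finset.card_singleton]
    · rw [Finset.mem_singleton]; exact fun h => hμs' h.symm
    · rw [Finset.mem_insert, Finset.mem_singleton]
      rintro (h | h)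
      · exact hss h
      · exact hμs h.symm

end Pool.Agent.H68.TV
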