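import Pool.Agent.H68.TV.Core
import Pool.Agent.H68.TV.Spec

set_option autoImplicit false

namespace Pool.Agent.H68.TV

open Finset Classical

set_option linter.unusedSectionVars false

namespace Data

variable {V W : Type} [AddCommGroup V] [AddCommGroup W] [Module (ZMod 2) V]
    [Module (ZMod 2) W] (D : Data V W)

/-- the switching sign -/
noncomputable def dl (i : V) : ℝ := if i = 0 then -1 else 1

theorem dl_mul_self (i : V) : dl i * dl i = 1 := by
  unfold dl; split_ifs <;> norm_num

theorem dl_pm (i : V) : dl i = 1 ∨ dl i = -1 := by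
  unfold dl; split_ifs
  · right; rfl
  · left; rfl

/-- the vertex type -/
abbrev T (V W : Type) [AddCommGroup V] := (V × W × W) ⊕ {l : V // l ≠ 0}

/-- the sign matrix -/
noncomputable def S : T V W → T V W → ℝ
  | Sum.inl p, Sum.inl q => dl p.1 * dl q.1 * D.C p q
  | Sum.inl p, Sum.inr l => chi (D.h (D.N l p.1))
  | Sum.inr l, Sum.inl q => chi (D.h (D.N l q.1))
  | Sum.inr _, Sum.inr _ => 1

theorem S_symm (a b : T V W) : D.S a b = D.S b a := by
  rcases a with p | l <;> rcases b with q | l'
  · simp only [S]; rw [D.C_symm]; ring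
  · rfl
  · rfl
  · rfl

theorem S_pm (a b : T V W) : D.S a b = 1 ∨ D.S a b = -1 := by
  rcases a with p | l <;> rcases b with q | l'
  · simp only [S]
    rcases dl_pm p.1 with h | h <;> rcases dl_pm q.1 with h' | h' <;>
      rcases D.C_pm p q with h'' | h'' <;> rw [h, h', h''] <;> norm_num
  · exact chi_pm _
  · exact chi_pm _
  · left; rfl

theorem S_diag (a : T V W) : D.S a a = 1 := by
  rcases a with p | l
  · simp only [S]
    rw [dl_mul_self, D.C_diag, one_mul]
  · rfl

variable [Fintype V] [Fintype W]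

theorem sumA (i : V) : ∑ l : V, chi (D.h (D.N l i)) = if i = 0 then (Fintype.card V : ℝ) else 0 := by
  split_ifs with h
  · subst h
    simp [chi_zero]
  · have := sum_chi (D.h.comp (D.N i)) (D.hA i h)
    simp only [AddMonoidHom.comp_apply] at this
    rw [← this]
    exact Finset.sum_congr rfl (fun l _ => by rw [D.Nsymm])

theorem sumA' (i : V) : ∑ l : V, chi (D.h (D.N i l)) = if i = 0 then (Fintype.card V : ℝ) else 0 := by
  rw [← D.sumA i]
  exact Finset.sum_congr rfl (fun l _ => by rw [D.Nsymm])

theorem sumE (i : V) : ∑ l : {l : V // l ≠ 0}, chi (D.h (D.N l i)) =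
    (if i = 0 then (Fintype.card V : ℝ) else 0) - 1 := by
  have h := Fintype.sum_eq_add_sum_subtype_ne (fun l : V => chi (D.h (D.N l i))) 0
  rw [D.sumA] at h
  simp only [map_zero, AddMonoidHom.zero_apply, chi_zero] at h
  rw [h]
  ring

theorem sum_dl_mul (f : V → ℝ) : ∑ i, dl i * f i = ∑ i, f i - 2 * f 0 := by
  have h : ∀ i : V, dl i * f i = f i - (if i = 0 then 2 * f i else 0) := by
    intro i
    unfold dl
    split_ifs <;> ring
  rw [Finset.sum_congr rfl (fun i _ => h i), Finset.sum_sub_distrib]
  simp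

theorem card_E : (Fintype.card {l : V // l ≠ 0} : ℝ) = Fintype.card V - 1 := by
  have h := Fintype.sum_eq_add_sum_subtype_ne (fun _ : V => (1 : ℝ)) 0
  simp only [Finset.sum_const, Finset.card_univ, nsmul_eq_mul, mul_one] at h
  rw [h]
  ring

/-- weighted class sums of `C` -/
theorem sum_C_mul (p : V × W × W) (f : V → ℝ) :
    ∑ q : V × W × W, D.C p q * f q.1 = -(Fintype.card W : ℝ) * ∑ j, f j := by
  rw [Fintype.sum_prod_type, Finset.mul_sum]
  refine Finset.sum_congr rfl (fun j _ => ?_)
  simp only
  rw [← Finset.sum_mul, D.classSum]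

theorem sum_main (f : V → ℝ) :
    ∑ q : V × W × W, f q.1 = (Fintype.card W : ℝ) ^ 2 * ∑ j, f j := by
  rw [Fintype.sum_prod_type, Finset.mul_sum]
  refine Finset.sum_congr rfl (fun j _ => ?_)
  simp only [Finset.sum_const, Finset.card_univ, nsmul_eq_mul, Fintype.card_prod, Nat.cast_mul]
  ring

section cards

variable (c : ℝ) (hc : 2 ≤ c) (hW : (Fintype.card W : ℝ) = c ^ 2)
  (hV : (Fintype.card V : ℝ) = 4 * c ^ 2)

include hW hV in
theorem row_main (p : V × W × W) :
    ∑ b : T V W, D.S (Sum.inl p) b = -4 * c ^ 4 * dl p.1 + 2 * c ^ 2 - 1 := by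
  rw [Fintype.sum_sum_type]
  simp only [S]
  have h1 : ∑ q : V × W × W, dl p.1 * dl q.1 * D.C p q =
      dl p.1 * ∑ q : V × W × W, D.C p q * dl q.1 := by
    rw [Finset.mul_sum]
    exact Finset.sum_congr rfl (fun q _ => by ring)
  rw [h1, D.sum_C_mul p dl, D.sumE]
  have h2 : ∑ j : V, dl j = Fintype.card V - 2 := by
    have := sum_dl_mul (fun _ : V => (1 : ℝ))
    simp only [mul_one] at this
    rw [this]
    simp
  rw [h2, hW, hV]
  unfold dl
  split_ifs <;> ring

include hW hV in
theorem row_E (l : {l : V // l ≠ 0}) :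
    ∑ b : T V W, D.S (Sum.inr l) b = 4 * c ^ 2 - 1 := by
  rw [Fintype.sum_sum_type]
  simp only [S]
  rw [sum_main (fun j => chi (D.h (D.N l j))), D.sumA', if_neg l.2]
  simp only [Finset.sum_const, Finset.card_univ, nsmul_eq_mul, mul_one]
  rw [card_E, hV]
  ring

include hW hV in
theorem sq_main_main (p r : V × W × W) :
    ∑ b : T V W, D.S (Sum.inl p) b * D.S b (Sum.inl r) =
      (if p = r then 4 * c ^ 6 else 0) + 4 * c ^ 2 * (dl p.1 * dl r.1) - 1 := by
  rw [Fintype.sum_sum_type]
  simp only [S]
  have h1 : ∑ q : V × W × W, dl p.1 * dl q.1 * D.C p q * (dl q.1 * dl r.1 * D.C q r) =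
      dl p.1 * dl r.1 * ∑ q : V × W × W, D.C p q * D.C q r := by
    rw [Finset.mul_sum]
    refine Finset.sum_congr rfl (fun q _ => ?_)
    have := dl_mul_self q.1
    linear_combination (dl p.1 * dl r.1 * D.C p q * D.C q r) * this
  have h2 : ∑ l : {l : V // l ≠ 0}, chi (D.h (D.N l p.1)) * chi (D.h (D.N l r.1)) =
      ∑ l : {l : V // l ≠ 0}, chi (D.h (D.N l (p.1 + r.1))) := by
    refine Finset.sum_congr rfl (fun l _ => ?_)
    rw [map_add, map_add, chi_add]
  rw [h1, h2, D.sumE, D.C_sq]
  have h3 : (p.1 + r.1 = 0) ↔ p.1 = r.1 := add_eq_zero_iff'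
  simp only [h3]
  by_cases h4 : p.1 = r.1
  · rw [if_pos h4, if_pos h4, h4, dl_mul_self, hV, hW]
    split_ifs <;> ring
  · have h5 : p ≠ r := fun h => h4 (by rw [h])
    rw [if_neg h4, if_neg h4, if_neg h5, hV]
    ring

include hW hV in
theorem sq_main_E (p : V × W × W) (l : {l : V // l ≠ 0}) :
    ∑ b : T V W, D.S (Sum.inl p) b * D.S b (Sum.inr l) = 2 * c ^ 2 - 1 := by
  rw [Fintype.sum_sum_type]
  simp only [S, mul_one]
  have h1 : ∑ q : V × W × W, dl p.1 * dl q.1 * D.C p q * chi (D.h (D.N l q.1)) =
      dl p.1 * ∑ q : V × W × W, D.C p q * (dl q.1 * chi (D.h (D.N l q.1))) := by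
    rw [Finset.mul_sum]
    exact Finset.sum_congr rfl (fun q _ => by ring)
  rw [h1, D.sum_C_mul p (fun j => dl j * chi (D.h (D.N l j))), D.sumE, sum_dl_mul, D.sumA',
    if_neg l.2, map_zero, map_zero, chi_zero, hW, hV]
  unfold dl
  split_ifs <;> ring

include hW hV in
theorem sq_E_E (l l' : {l : V // l ≠ 0}) :
    ∑ b : T V W, D.S (Sum.inr l) b * D.S b (Sum.inr l') =
      (if l = l' then 4 * c ^ 6 else 0) + 4 * c ^ 2 - 1 := by
  rw [Fintype.sum_sum_type]
  simp only [S, mul_one]
  have h1 : ∀ q : V × W × W, chi (D.h (D.N l q.1)) * chi (D.h (D.N l' q.1)) =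
      (fun j => chi (D.h (D.N ((l : V) + (l' : V)) j))) q.1 := by
    intro q
    simp only [map_add, AddMonoidHom.add_apply, chi_add]
  rw [Finset.sum_congr rfl (fun q _ => h1 q),
    sum_main (fun j => chi (D.h (D.N ((l : V) + (l' : V)) j))), D.sumA']
  have h3 : ((l : V) + (l' : V) = 0) ↔ l = l' := by
    rw [add_eq_zero_iff']
    exact Subtype.ext_iff.symm
  simp only [h3, Finset.sum_const, Finset.card_univ, nsmul_eq_mul, mul_one]
  rw [card_E, hV, hW]
  split_ifs <;> ring

/-- adjacency matrix -/
noncomputable def A (a b : T V W) : ℝ := (1 - D.S a b) / 2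

/-- the Perron-type vector -/
noncomputable def al (c : ℝ) : T V W → ℝ
  | Sum.inl p => c ^ 3 + c * dl p.1
  | Sum.inr _ => c ^ 3

include hW hV in
theorem card_T : (Fintype.card (T V W) : ℝ) = 4 * c ^ 6 + 4 * c ^ 2 - 1 := by
  rw [Fintype.card_sum, Nat.cast_add, card_E, Fintype.card_prod, Fintype.card_prod,
    Nat.cast_mul, Nat.cast_mul, hW, hV]
  ring

include hW hV in
theorem A_sq (a b : T V W) :
    ∑ x, D.A a x * D.A x b = (if a = b then (c ^ 3) ^ 2 else 0) + al c a * al c b := by
  have h1 : ∑ x, D.A a x * D.A x b =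
      ((Fintype.card (T V W) : ℝ) - ∑ x, D.S a x - ∑ x, D.S b x + ∑ x, D.S a x * D.S x b) / 4 := by
    have h2 : ∀ x, D.A a x * D.A x b =
        (1 - D.S a x - D.S b x + D.S a x * D.S x b) / 4 := by
      intro x
      unfold A
      rw [D.S_symm b x]
      ring
    rw [Finset.sum_congr rfl (fun x _ => h2 x), ← Finset.sum_div, Finset.sum_add_distrib,
      Finset.sum_sub_distrib, Finset.sum_sub_distrib]
    simp
  rw [h1, card_T c hW hV]
  rcases a with p | l <;> rcases b with r | l'
  · rw [D.row_main c hW hV, D.row_main c hW hV, D.sq_main_main c hW hV]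
    have h3 : ((Sum.inl p : T V W) = Sum.inl r) ↔ p = r := by simp
    simp only [h3, al]
    split_ifs <;> ring
  · rw [D.row_main c hW hV, D.row_E c hW hV, D.sq_main_E c hW hV, if_neg (by simp)]
    simp only [al]
    ring
  · have h4 : ∑ x, D.S (Sum.inr l) x * D.S x (Sum.inl r) =
        ∑ x, D.S (Sum.inl r) x * D.S x (Sum.inr l) := by
      refine Finset.sum_congr rfl (fun x _ => ?_)
      rw [D.S_symm (Sum.inr l) x, D.S_symm x (Sum.inl r)]
      ring
    rw [h4, D.row_main c hW hV, D.row_E c hW hV, D.sq_main_E c hW hV, if_neg (by simp)]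
    simp only [al]
    ring
  · rw [D.row_E c hW hV, D.row_E c hW hV, D.sq_E_E c hW hV]
    have h3 : ((Sum.inr l : T V W) = Sum.inr l') ↔ l = l' := by simp
    simp only [h3, al]
    split_ifs <;> ring

include D hc hW hV in
theorem final : ∃ n : ℕ, (c ≤ n) ∧ ∃ G : SimpleGraph (Fin n), ∃ inst : DecidableRel G.Adj,
      G.Connected ∧
      (Finset.univ.image (fun v => G.degree v)).card = 3 ∧
      (G.adjMatrix ℝ).charpoly.roots.toFinset.card = 3 := by
  have hcc : (1 : ℝ) < c ^ 2 := by nlinarith
  refine ⟨Fintype.card (T V W), ?_, ?_⟩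
  · rw [card_T c hW hV]
    have : (1 : ℝ) ≤ c ^ 6 := by
      have : (1 : ℝ) ≤ c := by linarith
      exact one_le_pow₀ this
    nlinarith
  · -- elements of V
    have hV3 : 2 < Fintype.card V := by
      have : (2 : ℝ) < (Fintype.card V : ℝ) := by rw [hV]; nlinarith
      exact_mod_cast this
    obtain ⟨x, y, z, hxy, hxz, hyz⟩ := Fintype.two_lt_card_iff.1 hV3
    -- two distinct nonzero elements
    have hl : ∃ l l' : V, l ≠ 0 ∧ l' ≠ 0 ∧ l ≠ l' := by
      refine ⟨x - z, y - z, sub_ne_zero.2 hxz, sub_ne_zero.2 hyz, ?_⟩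
      intro h
      exact hxy (sub_left_injective h)
    obtain ⟨l, l', hl0, hl0', hll⟩ := hl
    let e := Fintype.equivFin (T V W)
    have hpos : ∀ a : T V W, 0 < al c a := by
      intro a
      rcases a with p | l
      · simp only [al]
        rcases dl_pm p.1 with h | h <;> rw [h]
        · have : 0 < c := by linarith
          positivity
        · have h0 : 0 < c := by linarith
          have : 0 < c * (c ^ 2 - 1) := mul_pos h0 (by linarith)
          nlinarith
      · simp only [al]
        have : 0 < c := by linarith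
        positivity
    refine graph_main (fun a b => D.A (e.symm a) (e.symm b)) (fun a => al c (e.symm a)) (c ^ 3)
      ?_ ?_ ?_ ?_ ?_ ?_ (e (Sum.inr ⟨l, hl0⟩)) (e (Sum.inr ⟨l', hl0'⟩)) ?_ ?_ ?_
    · intro a b
      rcases D.S_pm (e.symm a) (e.symm b) with h | h
      · left; simp only [A]; rw [h]; norm_num
      · right; simp only [A]; rw [h]; norm_num
    · intro a b
      simp only [A]
      rw [D.S_symm]
    · intro a
      simp only [A]
      rw [D.S_diag]; norm_num
    · have : 0 < c := by linarith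
      positivity
    · intro a; exact hpos _
    · intro a b
      have h1 := Equiv.sum_comp e.symm (fun x => D.A (e.symm a) x * D.A x (e.symm b))
      rw [h1, D.A_sq c hW hV]
      simp only [EmbeddingLike.apply_eq_iff_eq]
    · intro h
      have := e.injective h
      simp only [Sum.inr.injEq, Subtype.mk.injEq] at this
      exact hll this
    · simp only [Equiv.symm_apply_apply, A, S]
      norm_num
    · have himg : (Finset.univ.image (fun a => al (V := V) (W := W) c (e.symm a))) =
          {c ^ 3 + c, c ^ 3 - c, c ^ 3} := by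
        ext t
        simp only [Finset.mem_image, Finset.mem_univ, true_and, Finset.mem_insert,
          Finset.mem_singleton]
        constructor
        · rintro ⟨a, rfl⟩
          rcases e.symm a with p | l
          · simp only [al]
            rcases dl_pm p.1 with h | h <;> rw [h]
            · left; ring
            · right; left; ring
          · right; right; rfl
        · rintro (rfl | rfl | rfl)
          · refine ⟨e (Sum.inl (l, 0, 0)), ?_⟩
            simp only [Equiv.symm_apply_apply, al, dl]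
            simp [hl0]
          · refine ⟨e (Sum.inl (0, 0, 0)), ?_⟩
            simp only [Equiv.symm_apply_apply, al, dl]
            simp
            ring
          · refine ⟨e (Sum.inr ⟨l, hl0⟩), ?_⟩
            simp only [Equiv.symm_apply_apply, al]
      rw [himg]
      rw [Finset.card_insert_of_notMem, Finset.card_insert_of_notMem, Finset.card_singleton]
      · rw [Finset.mem_singleton]; intro h; linarith
      · rw [Finset.mem_insert, Finset.mem_singleton]
        rintro (h | h)
        · linarith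
        · linarith

end cards

end Data

end Pool.Agent.H68.TV
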